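import Pool.Agent.L7h87.KM.Chain

/-!
Project KM (helper51), part HULL (helper87)
-/

set_option autoImplicit false

namespace Pool.Agent.L7h87.KM

open Set Cardinal Pool.Agent.L7h51.KM

universe u

theorem s_HULL (hST : S_ST.{u}) (hF3 : S_F3.{u}) : S_HULL.{u} := by
  classical
  intro α M r l hr hl hrl hsm A hAE hA
  have hst : ∀ X : Set α, X ⊆ M.E → #X < l → ∃ X', X ⊆ X' ∧ X' ⊆ M.E ∧ #X' < l ∧
      ∀ D, M.IsCocircuit D → #D < l → ∀ e ∈ D ∩ X,
        ∃ D', M.IsCocircuit D' ∧ D' ⊆ X' ∧ e ∈ D' ∧ D' ∩ X ⊆ D :=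
    fun X hX hXl => hST α M r l hr hl hrl hsm X hX hXl
  choose st hst1 hst2 hst3 hst4 using hst
  set Φ : Set α → Set α := fun X => if h : X ⊆ M.E ∧ #X < l then st X h.1 h.2 else ∅ with hΦ
  obtain ⟨T, hT⟩ := exists_chain (ι := r.ord.ToType) A Φ
  have hι : ∀ i : r.ord.ToType, #(Iio i) < l := fun i => (mk_Iio_lt i).trans hrl
  have hgood := chain_small hT hl hι M.E hAE hA (by
    intro X hAX hXE hXl
    have : Φ X = st X hXE hXl := by
      simp only [hΦ]
      rw [dif_pos ⟨hXE, hXl⟩]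
    rw [this]
    exact ⟨hst2 X hXE hXl, hst3 X hXE hXl⟩)
  haveI : NoMaxOrder r.ord.ToType := Cardinal.noMaxOrder hr.aleph0_le
  haveI : Nonempty r.ord.ToType := by
    rw [← mk_ne_zero_iff, mk_ord_toType]
    exact hr.ne_zero
  refine ⟨⋃ i, T i, ?_, ?_, ?_, ?_⟩
  · obtain ⟨i⟩ := (inferInstance : Nonempty r.ord.ToType)
    exact (hgood i).1.trans (subset_iUnion T i)
  · exact iUnion_subset fun i => (hgood i).2.1
  · refine (card_iUnion_lt_iff_forall_of_isRegular hl ?_).2 fun i => (hgood i).2.2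
    rw [mk_ord_toType]
    exact hrl
  · intro D hD hDl hne z hz
    by_contra hzA
    obtain ⟨e, heD, heA⟩ := hne
    have hez : e ≠ z := fun h => hzA (h ▸ heA)
    obtain ⟨C, hC, hCD⟩ := hF3 α M D e z hD heD hz hez
    have heC : e ∈ C := by
      have : e ∈ C ∩ D := by rw [hCD]; exact mem_insert _ _
      exact this.1
    have hXr : #(C ∩ ⋃ i, T i : Set α) < r :=
      (mk_le_mk_of_subset inter_subset_left).trans_lt (hsm C hC)
    obtain ⟨i, hi⟩ := small_subset hr (chain_mono hT) (X := C ∩ ⋃ i, T i) inter_subset_right hXr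
    have heT : e ∈ T i := hi ⟨heC, heA⟩
    obtain ⟨D', hD', hD's, heD', hD'T⟩ := hst4 (T i) (hgood i).2.1 (hgood i).2.2 D hD hDl e
      ⟨heD, heT⟩
    obtain ⟨j, hj⟩ := exists_gt i
    have hD'A : D' ⊆ ⋃ i, T i := by
      refine hD's.trans (Subset.trans ?_ (subset_iUnion T j))
      have h1 := chain_step hT hj
      have h2 : Φ (T i) = st (T i) (hgood i).2.1 (hgood i).2.2 := by
        simp only [hΦ]
        rw [dif_pos ⟨(hgood i).2.1, (hgood i).2.2⟩]
      rwa [h2] at h1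
    apply hC.inter_isCocircuit_ne_singleton hD' (e := e)
    ext x
    simp only [mem_singleton_iff]
    constructor
    · rintro ⟨hxC, hxD'⟩
      have hxA : x ∈ ⋃ i, T i := hD'A hxD'
      have hxT : x ∈ T i := hi ⟨hxC, hxA⟩
      have hxCD : x ∈ C ∩ D := ⟨hxC, hD'T ⟨hxD', hxT⟩⟩
      rw [hCD] at hxCD
      rcases hxCD with h | h
      · exact h
      · rw [mem_singleton_iff] at h
        exact absurd (h ▸ hxA) hzA
    · rintro rfl
      exact ⟨heC, heD'⟩

end Pool.Agent.L7h87.KM
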