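import Pool.Agent.L7h87.KM.Chain

/-!
Project KM (helper51), part ST (helper87)
-/

set_option autoImplicit false

namespace Pool.Agent.L7h87.KM

open Set Cardinal Pool.Agent.L7h51.KM

universe u

theorem s_ST (hST1 : S_ST1.{u}) (hSTX : S_STX.{u}) : S_ST.{u} := by
  classical
  intro α M r l hr hl hrl hsm A hAE hA
  by_contra hcon
  -- every small superset fails
  have hfail : ∀ X : Set α, (A ⊆ X ∧ X ⊆ M.E ∧ #X < l) → ∃ (D C : Set α) (e z : α),
      M.IsCocircuit D ∧ #D < l ∧ M.IsCircuit C ∧ C ∩ D = {e, z} ∧ e ∈ A ∧ z ∉ X ∧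
        C ∩ X ⊆ A := by
    rintro X ⟨hAX, hXE, hXl⟩
    by_contra hno
    apply hcon
    refine ⟨X, hAX, hXE, hXl, ?_⟩
    intro D hD hDl e he
    by_contra hno'
    apply hno
    obtain ⟨D1, C, z, h1, h2, h3, h4, h5, h6⟩ :=
      hST1 α M l A X D e hl.aleph0_le hAX hXE hXl hD hDl he.1 he.2 hno'
    exact ⟨D1, C, e, z, h1, h2, h3, h4, he.2, h5, h6⟩
  choose Df Cf ef zf hDf hDl hCf hCD heA hzX hCX using hfail
  set Φ : Set α → Set α := fun X => if h : A ⊆ X ∧ X ⊆ M.E ∧ #X < l then X ∪ (Df X h ∪ Cf X h)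
    else ∅ with hΦ
  obtain ⟨T, hT⟩ := exists_chain (ι := l.ord.ToType) A Φ
  have hΦeq : ∀ X (h : A ⊆ X ∧ X ⊆ M.E ∧ #X < l), Φ X = X ∪ (Df X h ∪ Cf X h) := by
    intro X h
    simp only [hΦ]
    rw [dif_pos h]
  have hgood := chain_small hT hl mk_Iio_lt M.E hAE hA (by
    intro X hAX hXE hXl
    rw [hΦeq X ⟨hAX, hXE, hXl⟩]
    refine ⟨union_subset hXE (union_subset (hDf _ _).subset_ground (hCf _ _).subset_ground), ?_⟩
    refine (mk_union_le _ _).trans_lt (add_lt_of_lt hl.aleph0_le hXl ?_)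
    exact (mk_union_le _ _).trans_lt (add_lt_of_lt hl.aleph0_le (hDl _ _)
      ((hsm _ (hCf _ _)).trans hrl)))
  refine hSTX α M r l hr hl hrl hsm l.ord.ToType (mk_ord_toType l) A T
    (fun i => Df (T i) (hgood i)) (fun i => Cf (T i) (hgood i)) (fun i => ef (T i) (hgood i))
    (fun i => zf (T i) (hgood i)) hAE hA (fun i => (hgood i).1) (fun i => hDf _ _)
    (fun i => hCf _ _) (fun i => hCD _ _) (fun i => heA _ _) (fun i => hzX _ _)
    (fun i => hCX _ _) ?_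
  intro i j hij
  have h1 := chain_step hT hij
  rw [hΦeq (T i) (hgood i)] at h1
  exact subset_union_right.trans h1

end Pool.Agent.L7h87.KM
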