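import Pool.Agent.L7h51.KM.Stm

/-!
Project KM (helper51), chains of sets (helper87)
-/

set_option autoImplicit false

namespace Pool.Agent.L7h87.KM

open Set Cardinal Pool.Agent.L7h51.KM

universe u

/-- a recursively defined chain -/
theorem exists_chain {α ι : Type u} [LinearOrder ι] [WellFoundedLT ι] (A : Set α)
    (Φ : Set α → Set α) : ∃ T : ι → Set α, ∀ i, T i = A ∪ ⋃ j ∈ Iio i, Φ (T j) := by
  refine ⟨WellFounded.fix (r := ((· < ·) : ι → ι → Prop)) wellFounded_lt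
    (fun i ih => A ∪ ⋃ (j : ι) (h : j < i), Φ (ih j h)), fun i => ?_⟩
  rw [WellFounded.fix_eq]
  rfl

/-- the size of the members of the chain -/
theorem chain_small {α ι : Type u} [LinearOrder ι] [WellFoundedLT ι] {A : Set α}
    {Φ : Set α → Set α} {T : ι → Set α} (hT : ∀ i, T i = A ∪ ⋃ j ∈ Iio i, Φ (T j))
    {l : Cardinal.{u}} (hl : l.IsRegular) (hι : ∀ i : ι, #(Iio i) < l) (E : Set α) (hAE : A ⊆ E)
    (hA : #A < l) (hΦ : ∀ X, A ⊆ X → X ⊆ E → #X < l → Φ X ⊆ E ∧ #(Φ X) < l) :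
    ∀ i, A ⊆ T i ∧ T i ⊆ E ∧ #(T i) < l := by
  intro i
  induction i using WellFoundedLT.induction with
  | ind i ih =>
    have h1 : ∀ j ∈ Iio i, Φ (T j) ⊆ E ∧ #(Φ (T j)) < l := fun j hj =>
      hΦ _ (ih j hj).1 (ih j hj).2.1 (ih j hj).2.2
    refine ⟨?_, ?_, ?_⟩
    · rw [hT i]
      exact subset_union_left
    · rw [hT i]
      exact union_subset hAE (iUnion₂_subset fun j hj => (h1 j hj).1)
    · rw [hT i]
      refine (mk_union_le _ _).trans_lt (add_lt_of_lt hl.aleph0_le hA ?_)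
      exact (card_biUnion_lt_iff_forall_of_isRegular (t := fun j _ => Φ (T j)) hl (hι i)).2
        fun j hj => (h1 j hj).2

/-- a step of the chain is in all later members -/
theorem chain_step {α ι : Type u} [LinearOrder ι] [WellFoundedLT ι] {A : Set α}
    {Φ : Set α → Set α} {T : ι → Set α} (hT : ∀ i, T i = A ∪ ⋃ j ∈ Iio i, Φ (T j))
    {i j : ι} (h : j < i) : Φ (T j) ⊆ T i := by
  intro x hx
  rw [hT i]
  exact Or.inr (mem_iUnion₂.2 ⟨j, h, hx⟩)

/-- the chain is monotone -/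
theorem chain_mono {α ι : Type u} [LinearOrder ι] [WellFoundedLT ι] {A : Set α}
    {Φ : Set α → Set α} {T : ι → Set α} (hT : ∀ i, T i = A ∪ ⋃ j ∈ Iio i, Φ (T j)) :
    Monotone T := by
  intro i j hij x hx
  rw [hT i] at hx
  rw [hT j]
  rcases hx with hx | hx
  · exact Or.inl hx
  · right
    obtain ⟨k, hk, hxk⟩ := mem_iUnion₂.1 hx
    exact mem_iUnion₂.2 ⟨k, lt_of_lt_of_le hk hij, hxk⟩

/-- a small subset of the union of a monotone chain along a regular cardinal lies in a member -/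
theorem small_subset {α : Type u} {r : Cardinal.{u}} (hr : r.IsRegular)
    {T : r.ord.ToType → Set α} (hT : Monotone T) {X : Set α} (hX : X ⊆ ⋃ i, T i) (hXr : #X < r) :
    ∃ i, X ⊆ T i := by
  have h1 : ∀ x : X, ∃ i, (x : α) ∈ T i := fun x => mem_iUnion.1 (hX x.2)
  choose f hf using h1
  have h2 : ¬ IsCofinal (range f) := by
    intro hcof
    have h3 := Order.cof_le hcof
    rw [Ordinal.cof_toType, hr.cof_ord] at h3
    exact absurd (h3.trans mk_range_le) (not_le.2 hXr)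
  rw [not_isCofinal_iff] at h2
  obtain ⟨i, hi⟩ := h2
  refine ⟨i, fun x hx => ?_⟩
  exact hT (hi _ (mem_range_self ⟨x, hx⟩)).le (hf ⟨x, hx⟩)

theorem mk_Iio_lt {c : Cardinal.{u}} (i : c.ord.ToType) : #(Iio i) < c :=
  Cardinal.mk_Iio_toType_ord_lt i

end Pool.Agent.L7h87.KM
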