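import Pool.Agent.L7h51.KM.Stm

/-!
Project KM (helper51), parts ST1 (helper87)
-/

set_option autoImplicit false

namespace Pool.Agent.L7h87.KM

open Set Cardinal Pool.Agent.L7h51.KM

universe u

theorem s_ST1 (hF2 : S_F2.{u}) : S_ST1.{u} := by
  intro α M l A A' D₀ e hl hAA' hA'E hA' hD₀ hD₀l heD₀ heA hno
  have hD₀E : D₀ ⊆ M.E := hD₀.subset_ground
  have heE : e ∈ M.E := hD₀E heD₀
  set S : Set α := (A \ D₀) ∪ (M.E \ A') with hS
  have hSE : S ⊆ M.E := by
    rintro x (hx | hx)
    · exact hA'E (hAA' hx.1)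
    · exact hx.1
  have hScl : S ⊆ M.closure S := M.subset_closure S hSE
  have heS : e ∉ S := by
    rintro (hx | hx)
    · exact hx.2 heD₀
    · exact hx.2 (hAA' heA)
  -- e is in the closure of S
  have hecl : e ∈ M.closure S := by
    by_contra hcon
    obtain ⟨D', hD', heD', hdis⟩ := hF2 α M S e hSE heE hcon
    apply hno
    refine ⟨D', hD', ?_, heD', ?_⟩
    · intro x hx
      by_contra hxA
      exact Set.disjoint_left.1 hdis hx (hScl (Or.inr ⟨hD'.subset_ground hx, hxA⟩))
    · intro x hx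
      by_contra hxD
      exact Set.disjoint_left.1 hdis hx.1 (hScl (Or.inl ⟨hx.2, hxD⟩))
  have hS'E : S \ D₀ ⊆ M.E := sdiff_subset.trans hSE
  -- e is not in the closure of S minus D₀
  have hencl : e ∉ M.closure (S \ D₀) := by
    intro hcon
    obtain ⟨C, hCs, hC, heC⟩ := M.exists_isCircuit_of_mem_closure hcon (fun h => heS h.1)
    apply hC.inter_isCocircuit_ne_singleton hD₀ (e := e)
    ext x
    simp only [mem_inter_iff, mem_singleton_iff]
    constructor
    · rintro ⟨hx, hxD⟩
      rcases hCs hx with h | h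
      · exact h
      · exact absurd hxD h.2
    · rintro rfl
      exact ⟨heC, heD₀⟩
  obtain ⟨I, hI⟩ := M.exists_isBasis (S \ D₀) hS'E
  obtain ⟨J, hJ, hIJ⟩ := hI.indep.subset_isBasis_of_subset (hI.subset.trans sdiff_subset) hSE
  have hJI : J ∩ (S \ D₀) = I := by
    refine (hI.eq_of_subset_indep (hJ.indep.subset inter_subset_left)
      (subset_inter hIJ hI.subset) inter_subset_right).symm
  have heJ : e ∉ J := fun h => heS (hJ.subset h)
  have heclJ : e ∈ M.closure J := by rw [hJ.closure_eq_closure]; exact hecl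
  have hC : M.IsCircuit (M.fundCircuit e J) := hJ.indep.fundCircuit_isCircuit heclJ heJ
  set C : Set α := M.fundCircuit e J with hCdef
  have hCsub : C ⊆ insert e J := M.fundCircuit_subset_insert e J
  have heC : e ∈ C := M.mem_fundCircuit e J
  have hz : ∃ z ∈ C, z ∈ J ∧ z ∉ I := by
    by_contra hcon
    push Not at hcon
    apply hencl
    rw [← hI.closure_eq_closure]
    have h1 : C \ {e} ⊆ I := by
      rintro x ⟨hx, hxe⟩
      rcases hCsub hx with h | h
      · exact absurd h hxe
      · exact hcon x hx h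
    exact M.closure_subset_closure h1 (hC.mem_closure_sdiff_singleton_of_mem heC)
  obtain ⟨z, hzC, hzJ, hzI⟩ := hz
  have hze : z ≠ e := fun h => heJ (h ▸ hzJ)
  have hzD₀ : z ∈ D₀ := by
    by_contra h
    apply hzI
    rw [← hJI]
    exact ⟨hzJ, hJ.subset hzJ, h⟩
  have hzA' : z ∉ A' := by
    rcases hJ.subset hzJ with h | h
    · exact absurd hzD₀ h.2
    · exact h.2
  have hind : M.Indep (insert e J \ {z}) :=
    (hJ.indep.mem_fundCircuit_iff heclJ heJ).1 hzC
  have hencl2 : e ∉ M.closure (J \ {z}) := by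
    have h1 := hind.notMem_closure_sdiff_of_mem (e := e) ⟨mem_insert _ _, fun h => hze (by
      simpa using h.symm)⟩
    have h2 : (insert e J \ {z}) \ {e} = J \ {z} := by
      ext x
      simp only [mem_sdiff, mem_insert_iff, mem_singleton_iff]
      constructor
      · rintro ⟨⟨h | h, h'⟩, h''⟩
        · exact absurd h h''
        · exact ⟨h, h'⟩
      · rintro ⟨h, h'⟩
        exact ⟨⟨Or.inr h, h'⟩, fun hh => heJ (hh ▸ h)⟩
    rwa [h2] at h1
  obtain ⟨D, hD, heD, hdis⟩ := hF2 α M (J \ {z}) e (sdiff_subset.trans (hJ.subset.trans hSE)) heE hencl2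
  have hJz : J \ {z} ⊆ M.closure (J \ {z}) :=
    M.subset_closure _ (sdiff_subset.trans (hJ.subset.trans hSE))
  have hSD : S \ D₀ ⊆ M.closure (J \ {z}) := by
    refine hI.subset_closure.trans (M.closure_subset_closure ?_)
    intro x hx
    exact ⟨hIJ hx, fun h => hzI (by rw [mem_singleton_iff] at h; rwa [← h])⟩
  have hCD1 : ∀ x ∈ C ∩ D, x = e ∨ x = z := by
    rintro x ⟨hxC, hxD⟩
    by_contra hcon
    push Not at hcon
    rcases hCsub hxC with h | h
    · exact hcon.1 h
    · exact Set.disjoint_left.1 hdis hxD (hJz ⟨h, hcon.2⟩)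
  have hzD : z ∈ D := by
    by_contra hcon
    apply hC.inter_isCocircuit_ne_singleton hD (e := e)
    ext x
    simp only [mem_singleton_iff]
    constructor
    · intro hx
      rcases hCD1 x hx with h | h
      · exact h
      · exact absurd (h ▸ hx.2) hcon
    · rintro rfl
      exact ⟨heC, heD⟩
  refine ⟨D, C, z, hD, ?_, hC, ?_, hzA', ?_⟩
  · have h1 : D ⊆ A' ∪ D₀ := by
      intro x hx
      by_contra hcon
      rw [mem_union, not_or] at hcon
      exact Set.disjoint_left.1 hdis hx (hSD ⟨Or.inr ⟨hD.subset_ground hx, hcon.1⟩, hcon.2⟩)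
    exact (mk_le_mk_of_subset h1).trans_lt ((mk_union_le _ _).trans_lt (add_lt_of_lt hl hA' hD₀l))
  · ext x
    simp only [mem_insert_iff, mem_singleton_iff]
    constructor
    · exact hCD1 x
    · rintro (rfl | rfl)
      · exact ⟨heC, heD⟩
      · exact ⟨hzC, hzD⟩
  · rintro x ⟨hxC, hxA'⟩
    rcases hCsub hxC with h | h
    · rw [h]; exact heA
    · rcases hJ.subset h with h | h
      · exact h.1
      · exact absurd hxA' h.2

end Pool.Agent.L7h87.KM
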